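import Pool.Agent.H39.Newt.Stmts

/-! # Project NEWTON, module COF: comparison of coefficients in the functional equation -/

set_option autoImplicit false
set_option linter.unusedSectionVars false

namespace Pool.Newt

open MvPolynomial Pool.Agent.H39.MonoR Pool.Agent.H75.Mono

section COF

variable {σ I : Type} [Fintype σ] [Fintype I] {k : Type} [Field k]

open Classical in
theorem COF_coeff (v : σ → ℕ) (γ : σ → ℤ) (e : σ → ℕ) :
    coeff (Finsupp.equivFunOnFinite.symm e) (xsh k v γ) =
      if (fun l => ((v l : ℤ) + γ l).toNat) = e then 1 else 0 := by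
  unfold xsh
  rw [coeff_monomial]
  congr 1
  rw [eq_iff_iff]
  exact Finsupp.equivFunOnFinite.symm.injective.eq_iff

theorem COF_desc (v : σ → ℕ) (γ : σ → ℤ) {l : σ} (h : (v l : ℤ) + γ l < 0) :
    eval (fun l => (v l : k)) (desc k γ) = 0 := by
  unfold desc
  rw [map_prod]
  refine Finset.prod_eq_zero (Finset.mem_univ l) ?_
  rw [map_prod]
  refine Finset.prod_eq_zero (i := v l) ?_ ?_
  · rw [Finset.mem_range]
    omega
  · simp

open Classical in
theorem COF_mul (v : σ → ℕ) (γ : σ → ℤ) (e : σ → ℕ) :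
    eval (fun l => (v l : k)) (desc k γ) * coeff (Finsupp.equivFunOnFinite.symm e) (xsh k v γ) =
      if (∀ l, (v l : ℤ) + γ l = e l) then eval (fun l => (v l : k)) (desc k γ) else 0 := by
  rw [COF_coeff]
  by_cases h : ∀ l, 0 ≤ (v l : ℤ) + γ l
  · have h1 : ((fun l => ((v l : ℤ) + γ l).toNat) = e) ↔ ∀ l, (v l : ℤ) + γ l = e l := by
      rw [funext_iff]
      refine forall_congr' fun l => ?_
      have := h l
      omega
    simp only [h1]
    split_ifs <;> simp
  · push Not at h
    obtain ⟨l, hl⟩ := h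
    rw [COF_desc v γ hl]
    simp

open Classical in
theorem COF_pow (a : I → σ → ℕ) (c : I → k) (m : ℕ) :
    poly a c ^ m = ∑ t ∈ Finset.piAntidiag (Finset.univ : Finset I) m,
      ((Nat.multinomial Finset.univ t : k) * ∏ i, c i ^ t i) •
        xsh k (fun l => ∑ i, t i * a i l) 0 := by
  unfold poly
  rw [Finset.sum_pow_eq_sum_piAntidiag]
  refine Finset.sum_congr rfl fun t _ => ?_
  have h1 : ∏ i, monomial (Finsupp.equivFunOnFinite.symm (a i)) (c i) ^ t i =
      monomial (Finsupp.equivFunOnFinite.symm fun l => ∑ i, t i * a i l) (∏ i, c i ^ t i) := by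
    simp_rw [monomial_pow]
    rw [← monomial_sum_prod]
    congr 2
    ext l
    simp [Finsupp.finsetSum_apply]
  rw [h1]
  unfold xsh
  simp only [Pi.zero_apply, add_zero, Int.toNat_natCast]
  rw [smul_monomial, smul_eq_mul, mul_one, ← C_eq_coe_nat, C_mul_monomial]

open Classical in
theorem COF_app (a : I → σ → ℕ) (c : I → k) (T : Module.End k (MvPolynomial σ k))
    (Γ : Finset (σ → ℤ)) (r : (σ → ℤ) → MvPolynomial σ k)
    (hT : ∀ v : σ → ℕ, T (xsh k v 0) =
      ∑ γ ∈ Γ, (eval (fun l => (v l : k)) (desc k γ * r γ)) • xsh k v γ) (m : ℕ) (e : σ → ℕ) :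
    coeff (Finsupp.equivFunOnFinite.symm e) (T (poly a c ^ m)) =
      ∑ γ ∈ Γ, ∑ t ∈ (Finset.piAntidiag (Finset.univ : Finset I) m).filter
        (fun t => ∀ l, (∑ i, (t i : ℤ) * (a i l : ℤ)) + γ l = e l),
        ((Nat.multinomial Finset.univ t : k) * ∏ i, c i ^ t i) *
          (eval (fun l => ∑ i, (t i : k) * (a i l : k)) (desc k γ) *
            eval (fun l => ∑ i, (t i : k) * (a i l : k)) (r γ)) := by
  rw [COF_pow, map_sum, coeff_sum]
  simp_rw [map_smul, hT, coeff_smul, coeff_sum, coeff_smul, smul_eq_mul, Finset.mul_sum]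
  rw [Finset.sum_comm]
  refine Finset.sum_congr rfl fun γ _ => ?_
  rw [Finset.sum_filter]
  refine Finset.sum_congr rfl fun t _ => ?_
  have e1 : (fun l => (∑ i, (t i : k) * (a i l : k))) =
      fun l => (((∑ i, t i * a i l : ℕ)) : k) := by
    funext l
    push_cast
    rfl
  have e2 : ∀ l, (∑ i, (t i : ℤ) * (a i l : ℤ)) = ((∑ i, t i * a i l : ℕ) : ℤ) := by
    intro l
    push_cast
    rfl
  rw [e1]
  simp_rw [e2]
  have h := COF_mul (k := k) (fun l => ∑ i, t i * a i l) γ e
  rw [map_mul]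
  have h2 : ∀ A B Cc Dd : k, A * (B * Cc * Dd) = A * Cc * (B * Dd) := by
    intro A B Cc Dd
    ring
  rw [h2, h]
  split_ifs <;> ring

open Classical in
theorem COF_self (a : I → σ → ℕ) (c : I → k) (m : ℕ) (e : σ → ℕ) :
    coeff (Finsupp.equivFunOnFinite.symm e) (poly a c ^ m) =
      ∑ t ∈ (Finset.piAntidiag (Finset.univ : Finset I) m).filter
        (fun t => ∀ l, (∑ i, (t i : ℤ) * (a i l : ℤ)) = e l),
        (Nat.multinomial Finset.univ t : k) * ∏ i, c i ^ t i := by
  rw [COF_pow, coeff_sum, Finset.sum_filter]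
  refine Finset.sum_congr rfl fun t _ => ?_
  rw [coeff_smul, COF_coeff, smul_eq_mul]
  have e2 : ∀ l, (∑ i, (t i : ℤ) * (a i l : ℤ)) = ((∑ i, t i * a i l : ℕ) : ℤ) := by
    intro l
    push_cast
    rfl
  simp_rw [e2]
  have h1 : ((fun l => (((∑ i, t i * a i l : ℕ) : ℤ) + (0 : σ → ℤ) l).toNat) = e) ↔
      ∀ l, ((∑ i, t i * a i l : ℕ) : ℤ) = e l := by
    rw [funext_iff]
    refine forall_congr' fun l => ?_
    rw [Pi.zero_apply, add_zero, Int.toNat_natCast]
    exact Nat.cast_inj.symm
  simp only [h1]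
  split_ifs <;> simp

end COF

open Classical in
theorem sCof (hWey : SWey) : SCof := by
  intro σ I _ _ k _ _ a c b hb
  obtain ⟨d, P, hP, hbs⟩ := hb
  choose Γ r hr using fun i => hWey σ k (P i) (hP i)
  refine ⟨(Finset.range d).biUnion Γ, fun γ => ∑ i ∈ Finset.range d,
    if γ ∈ Γ i then X none ^ i * rename some (r i γ) else 0, ?_⟩
  intro n e
  have h := congrArg (coeff (Finsupp.equivFunOnFinite.symm e)) (hbs n)
  rw [coeff_smul, COF_self, coeff_sum, smul_eq_mul] at h
  simp_rw [coeff_smul, smul_eq_mul] at h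
  have h1 : ∀ i, coeff (Finsupp.equivFunOnFinite.symm e) (P i (poly a c ^ (n + 1))) = _ :=
    fun i => COF_app a c (P i) (Γ i) (r i) (hr i) (n + 1) e
  simp_rw [h1] at h
  have key : ∑ i ∈ Finset.range d, (n : k) ^ i * ∑ γ ∈ Γ i,
      ∑ t ∈ (Finset.piAntidiag (Finset.univ : Finset I) (n + 1)).filter
        (fun t => ∀ l, (∑ i, (t i : ℤ) * (a i l : ℤ)) + γ l = e l),
        ((Nat.multinomial Finset.univ t : k) * ∏ i, c i ^ t i) *
          (eval (fun l => ∑ i, (t i : k) * (a i l : k)) (desc k γ) *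
            eval (fun l => ∑ i, (t i : k) * (a i l : k)) (r i γ)) =
      ∑ γ ∈ (Finset.range d).biUnion Γ,
      ∑ t ∈ (Finset.piAntidiag (Finset.univ : Finset I) (n + 1)).filter
        (fun t => ∀ l, (∑ i, (t i : ℤ) * (a i l : ℤ)) + γ l = e l),
        (Nat.multinomial Finset.univ t : k) * (∏ i, c i ^ t i) *
          (eval (fun l => ∑ i, (t i : k) * (a i l : k)) (desc k γ) *
            eval (fun o => Option.elim o (n : k) (fun l => ∑ i, (t i : k) * (a i l : k)))
              (∑ i ∈ Finset.range d,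
                if γ ∈ Γ i then X none ^ i * rename some (r i γ) else 0)) := by
    have e1 : ∀ (γ : σ → ℤ) (t : I → ℕ),
        eval (fun o => Option.elim o (n : k) (fun l => ∑ i, (t i : k) * (a i l : k)))
          (∑ i ∈ Finset.range d, if γ ∈ Γ i then X none ^ i * rename some (r i γ) else 0) =
        ∑ i ∈ Finset.range d, if γ ∈ Γ i then (n : k) ^ i *
          eval (fun l => ∑ i, (t i : k) * (a i l : k)) (r i γ) else 0 := by
      intro γ t
      rw [map_sum]
      refine Finset.sum_congr rfl fun i _ => ?_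
      split_ifs
      · rw [map_mul, map_pow, eval_X, eval_rename]
        rfl
      · simp
    simp_rw [e1, Finset.mul_sum]
    have e2 : ∀ i ∈ Finset.range d, ∀ G : (σ → ℤ) → k, ∑ γ ∈ Γ i, G γ =
        ∑ γ ∈ (Finset.range d).biUnion Γ, if γ ∈ Γ i then G γ else 0 := by
      intro i hi G
      rw [← Finset.sum_filter]
      refine Finset.sum_congr ?_ fun _ _ => rfl
      ext γ
      simp only [Finset.mem_filter, Finset.mem_biUnion]
      exact ⟨fun h => ⟨⟨i, hi, h⟩, h⟩, fun h => h.2⟩
    rw [Finset.sum_congr rfl fun i hi => e2 i hi _]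
    rw [Finset.sum_comm]
    refine Finset.sum_congr rfl fun γ _ => ?_
    have e3 : ∀ i, (if γ ∈ Γ i then ∑ t ∈ (Finset.piAntidiag (Finset.univ : Finset I) (n + 1)).filter
        (fun t => ∀ l, (∑ i, (t i : ℤ) * (a i l : ℤ)) + γ l = e l), (n : k) ^ i *
        (((Nat.multinomial Finset.univ t : k) * ∏ i, c i ^ t i) *
          (eval (fun l => ∑ i, (t i : k) * (a i l : k)) (desc k γ) *
            eval (fun l => ∑ i, (t i : k) * (a i l : k)) (r i γ))) else 0) =
        ∑ t ∈ (Finset.piAntidiag (Finset.univ : Finset I) (n + 1)).filter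
        (fun t => ∀ l, (∑ i, (t i : ℤ) * (a i l : ℤ)) + γ l = e l),
          if γ ∈ Γ i then (n : k) ^ i *
        (((Nat.multinomial Finset.univ t : k) * ∏ i, c i ^ t i) *
          (eval (fun l => ∑ i, (t i : k) * (a i l : k)) (desc k γ) *
            eval (fun l => ∑ i, (t i : k) * (a i l : k)) (r i γ))) else 0 := by
      intro i
      split_ifs
      · rfl
      · simp
    simp_rw [e3]
    rw [Finset.sum_comm]
    refine Finset.sum_congr rfl fun t _ => ?_
    refine Finset.sum_congr rfl fun i _ => ?_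
    split_ifs
    · ring
    · ring
  rw [← key]
  exact h.symm

end Pool.Newt
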