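import Pool.Agent.H39.Newt.Stmts

/-! # Project NEWTON, module DEC: the decomposition of the arcs -/

set_option autoImplicit false

namespace Pool.Newt

open MvPolynomial Pool.Agent.H39.MonoR Pool.Agent.H75.Mono

section DEC

variable {k : Type} [Field k] [Algebra k ℂ] {σ I : Type} [Fintype σ] [Fintype I]

theorem dec_coeff_zero [Nonempty I] (a : I → σ → ℕ) (c : I → k) (u : σ → ℕ)
    (x : σ → PowerSeries ℂ) (hx : ∀ j l, l < u j → PowerSeries.coeff l (x j) = 0) :
    ∀ l, l < Nw a u → PowerSeries.coeff l (aeval x (poly a c)) = 0 := by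
  have hdvd : ∀ j, (PowerSeries.X : PowerSeries ℂ) ^ (u j) ∣ x j := fun j =>
    PowerSeries.X_pow_dvd_iff.2 (hx j)
  have hmon : ∀ i, (PowerSeries.X : PowerSeries ℂ) ^ (Nw a u) ∣
      aeval x (monomial (Finsupp.equivFunOnFinite.symm (a i)) (c i)) := by
    intro i
    rw [aeval_monomial]
    refine Dvd.dvd.mul_left ?_ _
    rw [Finsupp.prod_fintype _ _ (fun j => pow_zero _)]
    have h1 : (PowerSeries.X : PowerSeries ℂ) ^ (dot u (a i)) ∣
        ∏ j, x j ^ (Finsupp.equivFunOnFinite.symm (a i)) j := by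
      unfold dot
      rw [← Finset.prod_pow_eq_pow_sum]
      refine Finset.prod_dvd_prod_of_dvd _ _ fun j _ => ?_
      rw [pow_mul]
      exact pow_dvd_pow_of_dvd (hdvd j) _
    exact (pow_dvd_pow _ (Nw_le a u i)).trans h1
  have h : (PowerSeries.X : PowerSeries ℂ) ^ (Nw a u) ∣ aeval x (poly a c) := by
    unfold poly
    rw [map_sum]
    exact Finset.dvd_sum fun i _ => hmon i
  exact PowerSeries.X_pow_dvd_iff.1 h

open Classical in
/-- the order of the components of an arc, `M` for the zero series -/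
noncomputable def decOrd {M : ℕ} (φ : σ × Fin M → ℂ) (j : σ) : ℕ :=
  if h : ∃ l, PowerSeries.coeff l (arc φ j) ≠ 0 then Nat.find h else M

omit [Fintype σ] in
theorem decOrd_lt {M : ℕ} (φ : σ × Fin M → ℂ) (j : σ) (l : ℕ) (h : l < decOrd φ j) :
    PowerSeries.coeff l (arc φ j) = 0 := by
  unfold decOrd at h
  split_ifs at h with h1
  · by_contra h2
    exact (Nat.find_min h1 h) h2
  · push Not at h1
    exact h1 l

omit [Fintype σ] in
theorem decOrd_ne {M : ℕ} (φ : σ × Fin M → ℂ) (j : σ) (h : decOrd φ j < M) :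
    PowerSeries.coeff (decOrd φ j) (arc φ j) ≠ 0 := by
  unfold decOrd at h ⊢
  split_ifs at h ⊢ with h1
  · exact Nat.find_spec h1
  · exact absurd h (lt_irrefl _)

omit [Fintype σ] in
theorem decOrd_le {M : ℕ} (φ : σ × Fin M → ℂ) (j : σ) {l : ℕ}
    (h : PowerSeries.coeff l (arc φ j) ≠ 0) : decOrd φ j ≤ l := by
  by_contra h1
  exact h (decOrd_lt φ j l (not_le.1 h1))

omit [Fintype σ] in
theorem le_decOrd {M : ℕ} (φ : σ × Fin M → ℂ) (j : σ) {v : ℕ} (hv : v < M)
    (h : ∀ l, l < v → PowerSeries.coeff l (arc φ j) = 0) : v ≤ decOrd φ j := by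
  by_contra h1
  rw [not_le] at h1
  exact decOrd_ne φ j (h1.trans hv) (h _ h1)

theorem dec_bound [Nonempty I] (a : I → σ → ℕ) {nB : ℕ} (b : Fin nB → NBox σ)
    (hb : Decomp a b) : ∃ C : ℕ, ∀ d M : ℕ, C * (d + 1) ≤ M → ∀ β (m : Fin (b β).r → ℕ),
      Nw a ((b β).pt m) ≤ d → ∀ j, (b β).pt m j + d < M := by
  refine ⟨(∑ β, ∑ j, (b β).u j) + (∑ β, ∑ s, ∑ j, (b β).w s j) + 2, ?_⟩
  intro d M hM β m hN j
  have h1 := (NBox.face_pt' (hb.1 β) m).2
  have hm : ∑ s, m s ≤ d := by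
    refine le_trans ?_ hN
    rw [h1]
    refine le_trans ?_ (Nat.le_add_left _ _)
    refine Finset.sum_le_sum fun s _ => ?_
    exact Nat.le_mul_of_pos_right _ ((hb.1 β).1 s).2.1
  have hu : (b β).u j ≤ ∑ β, ∑ j, (b β).u j :=
    (Finset.single_le_sum (f := fun j => (b β).u j) (fun _ _ => Nat.zero_le _)
      (Finset.mem_univ j)).trans
      (Finset.single_le_sum (f := fun β => ∑ j, (b β).u j) (fun _ _ => Nat.zero_le _)
        (Finset.mem_univ β))
  have hw : ∀ s, (b β).w s j ≤ ∑ β, ∑ s, ∑ j, (b β).w s j := fun s =>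
    (Finset.single_le_sum (f := fun j => (b β).w s j) (fun _ _ => Nat.zero_le _)
      (Finset.mem_univ j)).trans
      ((Finset.single_le_sum (f := fun s => ∑ j, (b β).w s j) (fun _ _ => Nat.zero_le _)
        (Finset.mem_univ s)).trans
        (Finset.single_le_sum (f := fun β => ∑ s, ∑ j, (b β).w s j) (fun _ _ => Nat.zero_le _)
          (Finset.mem_univ β)))
  have hs : ∑ s, m s * (b β).w s j ≤ d * ∑ β, ∑ s, ∑ j, (b β).w s j := by
    refine le_trans (Finset.sum_le_sum fun s _ => Nat.mul_le_mul_left (m s) (hw s)) ?_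
    rw [← Finset.sum_mul]
    exact Nat.mul_le_mul_right _ hm
  have e : (b β).pt m j = (b β).u j + ∑ s, m s * (b β).w s j := rfl
  rw [e]
  generalize (∑ β, ∑ j, (b β).u j) = U at *
  generalize (∑ β, ∑ s, ∑ j, (b β).w s j) = W at *
  nlinarith

theorem dec : SDec := by
  intro k _ _ σ I _ _ _ a c nB b hb
  obtain ⟨C, hC⟩ := dec_bound a b hb
  refine ⟨C, fun d M hM => ⟨hC d M hM, ?_, ?_⟩⟩
  · intro φ hφ
    have hN : Nw a (decOrd φ) ≤ d := by
      by_contra h
      rw [not_le] at h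
      have h1 := dec_coeff_zero a c (decOrd φ) (arc φ) (fun j l hl => decOrd_lt φ j l hl) d h
      have h2 := hφ d le_rfl
      rw [if_pos rfl] at h2
      unfold arcEval at h2
      rw [h1] at h2
      exact zero_ne_one h2
    obtain ⟨⟨⟨β, m⟩, p⟩, ⟨hp, hpt⟩, -⟩ := hb.2 (decOrd φ)
    dsimp only at hp hpt
    have hN1 : Nw a ((b β).pt m) ≤ d := by
      rw [(NBox.face_pt' (hb.1 β) m).2, ← (NBox.face_pt (hb.1 β) m hp).2, ← hpt]
      exact hN
    refine ⟨β, m, hN1, fun j => ⟨fun l hl => ?_, fun hj => ?_⟩⟩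
    · refine decOrd_lt φ j l (lt_of_lt_of_le hl ?_)
      rw [hpt]
      exact Nat.le_add_right _ _
    · have h1 : decOrd φ j = (b β).pt m j := by
        rw [hpt, Pi.add_apply, hp j hj, add_zero]
      have h2 := hC d M hM β m hN1 j
      rw [← h1]
      exact decOrd_ne φ j (by omega)
  · have key : ∀ (φ : σ × Fin M → ℂ) (y : Σ β : Fin nB, (Fin (b β).r → ℕ)),
        Nw a ((b y.1).pt y.2) ≤ d → φ ∈ Cyl ((b y.1).pt y.2) (b y.1).F →
        ∃ p : σ → ℕ, (∀ j, j ∉ (b y.1).F → p j = 0) ∧ decOrd φ = (b y.1).pt y.2 + p := by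
      intro φ y hy hφ
      have h1 := hC d M hM y.1 y.2 hy
      have hle : ∀ j, (b y.1).pt y.2 j ≤ decOrd φ j := fun j =>
        le_decOrd φ j (by have := h1 j; omega) (hφ j).1
      refine ⟨fun j => decOrd φ j - (b y.1).pt y.2 j, fun j hj => ?_, ?_⟩
      · have := decOrd_le φ j ((hφ j).2 hj)
        exact Nat.sub_eq_zero_of_le this
      · funext j
        have := hle j
        simp only [Pi.add_apply]
        omega
    intro φ y y' hy hy' hφ hφ'
    obtain ⟨p, hp, e⟩ := key φ y hy hφ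
    obtain ⟨p', hp', e'⟩ := key φ y' hy' hφ'
    have := (hb.2 (decOrd φ)).unique (y₁ := (y, p)) (y₂ := (y', p')) ⟨hp, e⟩ ⟨hp', e'⟩
    exact congrArg Prod.fst this

end DEC

end Pool.Newt
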