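import Pool.Agent.H39.Newt.Stmts

/-! # Project NEWTON, module FUN -/

set_option autoImplicit false

namespace Pool.Newt

open MvPolynomial Pool.Agent.H39.MonoR Pool.Agent.H75.Mono

theorem sFun : SFun := by
  classical
  intro R _ k _ _ hinj Y h1
  have : IsDomain R := hinj.isDomain (algebraMap R k)
  have : FaithfulSMul R k := (faithfulSMul_iff_algebraMap_injective R k).2 hinj
  let _ : Algebra (FractionRing R) k := FractionRing.liftAlgebra R k
  have : IsScalarTower R (FractionRing R) k := FractionRing.isScalarTower_liftAlgebra R k
  obtain ⟨g, hg⟩ := LinearMap.exists_leftInverse_of_injective (Algebra.linearMap (FractionRing R) k)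
    (LinearMap.ker_eq_bot.2 (algebraMap (FractionRing R) k).injective)
  have hg1 : g 1 = 1 := by
    have := congrArg (fun F => F 1) hg
    simpa using this
  obtain ⟨b, hb⟩ := IsLocalization.exist_integer_multiples_of_finset (nonZeroDivisors R)
    (Y.image g)
  have hb' : ∀ y, y ∈ Y → ∃ m : R, algebraMap R (FractionRing R) m = (b : R) • g y := fun y hy =>
    hb (g y) (Finset.mem_image_of_mem g hy)
  choose μ hμ using hb'
  have hKinj : Function.Injective (algebraMap R (FractionRing R)) := IsFractionRing.injective R _
  refine ⟨fun y => if h : y ∈ Y then μ y h else 0, ?_, ?_⟩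
  · intro h0
    simp only [dif_pos h1] at h0
    have h2 := hμ 1 h1
    rw [h0, map_zero, hg1, Algebra.smul_def, mul_one] at h2
    have h3 : (b : R) = 0 := hKinj (by rw [map_zero]; exact h2.symm)
    exact nonZeroDivisors.coe_ne_zero b h3
  · intro x hx
    apply hKinj
    have h2 : ∑ y ∈ Y, algebraMap R (FractionRing R) (x y) * g y = 0 := by
      have h3 := congrArg g hx
      rw [map_sum, map_zero] at h3
      rw [← h3]
      refine Finset.sum_congr rfl fun y _ => ?_
      rw [IsScalarTower.algebraMap_apply R (FractionRing R) k,
        ← Algebra.smul_def (algebraMap R (FractionRing R) (x y)) y, map_smul, smul_eq_mul]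
    rw [map_sum, map_zero]
    have h4 : ∑ y ∈ Y, algebraMap R (FractionRing R) (x y * if h : y ∈ Y then μ y h else 0) =
        (b : R) • ∑ y ∈ Y, algebraMap R (FractionRing R) (x y) * g y := by
      rw [Finset.smul_sum]
      refine Finset.sum_congr rfl fun y hy => ?_
      rw [dif_pos hy, map_mul, hμ y hy, mul_smul_comm]
    rw [h4, h2, smul_zero]

end Pool.Newt
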