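import Pool.Agent.H39.Newt.Stmts
import Mathlib.RingTheory.Nilpotent.Exp

/-! # Project NEWTON, module NIL: logarithms of unipotent elements -/

set_option autoImplicit false

namespace Pool.Newt

section NIL

variable {A : Type} [CommRing A] [Algebra ℚ A]

theorem NIL_exp {z : A} (hz : IsNilpotent z) : ∃ w : A, IsNilpotent.exp z = 1 + z + z ^ 2 * w := by
  obtain ⟨k, hk⟩ := hz
  have hk2 : z ^ (k + 2) = 0 := by rw [pow_add, hk, zero_mul]
  refine ⟨∑ i ∈ Finset.range k, ((i + 2).factorial : ℚ)⁻¹ • z ^ i, ?_⟩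
  rw [IsNilpotent.exp_eq_sum hk2, Finset.sum_range_succ', Finset.sum_range_succ', Finset.mul_sum]
  have e1 : ∑ i ∈ Finset.range k, ((i + 1 + 1).factorial : ℚ)⁻¹ • z ^ (i + 1 + 1) =
      ∑ i ∈ Finset.range k, z ^ 2 * ((i + 2).factorial : ℚ)⁻¹ • z ^ i := by
    refine Finset.sum_congr rfl fun i _ => ?_
    rw [mul_smul_comm]
    congr 1
    ring
  rw [e1]
  simp
  ring

theorem NIL_log {x : A} (hx : IsNilpotent (x - 1)) :
    ∃ L : A, IsNilpotent L ∧ IsNilpotent.exp L = x := by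
  obtain ⟨n, hn⟩ : ∃ n, n = x - 1 := ⟨_, rfl⟩
  rw [← hn] at hx
  have hxn : x = 1 + n := by rw [hn]; ring
  have key : ∀ r : ℕ, ∃ L : A, IsNilpotent L ∧ ∃ y, x * IsNilpotent.exp (-L) = 1 + n ^ (r + 1) * y := by
    intro r
    induction r with
    | zero =>
      refine ⟨0, IsNilpotent.zero, 1, ?_⟩
      rw [neg_zero, IsNilpotent.exp_zero, hxn]
      ring
    | succ r ih =>
      obtain ⟨L, hL, y, hy⟩ := ih
      have hz : IsNilpotent (n ^ (r + 1) * y) := by
        refine Commute.isNilpotent_mul_right (Commute.all _ _) ?_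
        exact hx.pow_succ r
      obtain ⟨w, hw⟩ := NIL_exp hz.neg
      refine ⟨L + n ^ (r + 1) * y, Commute.isNilpotent_add (Commute.all _ _) hL hz,
        n ^ r * y ^ 2 * (-1 + w + n ^ (r + 1) * y * w), ?_⟩
      rw [neg_add, IsNilpotent.exp_add_of_commute (Commute.all _ _) hL.neg hz.neg, ← mul_assoc, hy,
        hw]
      ring
  obtain ⟨k, hk⟩ := hx
  obtain ⟨L, hL, y, hy⟩ := key k
  refine ⟨L, hL, ?_⟩
  rw [pow_succ, hk, zero_mul, zero_mul, add_zero] at hy
  have h1 := IsNilpotent.exp_mul_exp_neg_self hL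
  have h2 := IsNilpotent.exp_neg_mul_exp_self hL
  calc IsNilpotent.exp L = (x * IsNilpotent.exp (-L)) * IsNilpotent.exp L := by rw [hy, one_mul]
    _ = x * (IsNilpotent.exp (-L) * IsNilpotent.exp L) := by ring
    _ = x := by rw [h2, mul_one]

theorem NIL_zpow {z : A} (hz : IsNilpotent z) (u : Aˣ) (hu : (u : A) = IsNilpotent.exp z) (m : ℤ) :
    ((u ^ m : Aˣ) : A) = IsNilpotent.exp ((m : A) * z) := by
  have hm : ∀ m : ℤ, IsNilpotent ((m : A) * z) := fun m =>
    Commute.isNilpotent_mul_left (Commute.all _ _) hz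
  have hinv : ((u⁻¹ : Aˣ) : A) = IsNilpotent.exp (-z) := by
    have h1 := IsNilpotent.exp_mul_exp_neg_self hz
    rw [← hu] at h1
    exact (Units.inv_eq_of_mul_eq_one_right h1)
  induction m using Int.induction_on with
  | zero => simp
  | succ i ih =>
    rw [zpow_add, zpow_one, Units.val_mul, ih, hu,
      ← IsNilpotent.exp_add_of_commute (Commute.all _ _) (hm _) hz]
    congr 1
    push_cast
    ring
  | pred i ih =>
    rw [zpow_sub, zpow_one, Units.val_mul, ih, hinv,
      ← IsNilpotent.exp_add_of_commute (Commute.all _ _) (hm _) hz.neg]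
    congr 1
    push_cast
    ring

theorem NIL_sum {I : Type} (s : Finset I) (β : I → ℤ) (L : I → A) (hL : ∀ i, IsNilpotent (L i))
    (x : I → Aˣ) (hx : ∀ i, (x i : A) = IsNilpotent.exp (L i)) :
    IsNilpotent (∑ i ∈ s, (β i : A) * L i) ∧
      ((∏ i ∈ s, x i ^ β i : Aˣ) : A) = IsNilpotent.exp (∑ i ∈ s, (β i : A) * L i) := by
  classical
  have hm : ∀ i, IsNilpotent ((β i : A) * L i) := fun i =>
    Commute.isNilpotent_mul_left (Commute.all _ _) (hL i)
  induction s using Finset.induction_on with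
  | empty => simp
  | insert a s ha ih =>
    rw [Finset.sum_insert ha, Finset.prod_insert ha]
    refine ⟨Commute.isNilpotent_add (Commute.all _ _) (hm a) ih.1, ?_⟩
    rw [Units.val_mul, ih.2, NIL_zpow (hL a) (x a) (hx a),
      IsNilpotent.exp_add_of_commute (Commute.all _ _) (hm a) ih.1]

end NIL

theorem sNil : SNil := by
  intro I _ A _ _ x hx
  choose L hL hexp using fun i => NIL_log (hx i)
  refine ⟨L, fun β => ?_⟩
  obtain ⟨h1, h2⟩ := NIL_sum Finset.univ β L hL x fun i => (hexp i).symm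
  obtain ⟨w, hw⟩ := NIL_exp h1
  rw [h2, hw]
  set S := ∑ i, (β i : A) * L i with hS
  have hu : IsUnit (1 + S * w) := by
    refine IsNilpotent.isUnit_one_add ?_
    exact Commute.isNilpotent_mul_right (Commute.all _ _) h1
  obtain ⟨v, hv⟩ := hu
  refine ⟨v⁻¹, ?_⟩
  have e : 1 + S + S ^ 2 * w - 1 = v * S := by
    rw [hv]
    ring
  rw [e, ← mul_assoc, Units.inv_mul, one_mul]

end Pool.Newt
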