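import Pool.Agent.H39.Newt.Stmts

/-! # Project NEWTON, module PHI -/

set_option autoImplicit false

namespace Pool.Newt

theorem sPhi : SPhi := by
  classical
  intro I _ s E hE
  set e : I → ℕ := fun i => (Fintype.equivFin I i : ℕ) with he
  have hinj : Function.Injective e := fun i j h =>
    (Fintype.equivFin I).injective (Fin.ext h)
  set p : (I → ℤ) → Polynomial ℤ := fun κ => ∑ i, if i ∈ s then 0 else
    Polynomial.monomial (e i) (κ i) with hp
  have hp0 : ∀ κ ∈ E, p κ ≠ 0 := by
    intro κ hκ h0
    obtain ⟨i, hi, hi'⟩ := hE κ hκ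
    have h1 := congrArg (fun q => Polynomial.coeff q (e i)) h0
    simp only [hp, Polynomial.finsetSum_coeff, Polynomial.coeff_zero] at h1
    rw [Finset.sum_eq_single i] at h1
    · rw [if_neg hi, Polynomial.coeff_monomial, if_pos rfl] at h1
      exact hi' h1
    · intro j _ hj
      split_ifs
      · simp
      · rw [Polynomial.coeff_monomial, if_neg fun h => hj (hinj h)]
    · intro h
      exact absurd (Finset.mem_univ i) h
  set P : Polynomial ℤ := Polynomial.X * ∏ κ ∈ E, p κ with hP
  have hP0 : P ≠ 0 := mul_ne_zero Polynomial.X_ne_zero (Finset.prod_ne_zero_iff.2 hp0)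
  obtain ⟨n, hn⟩ : ∃ n : ℕ, P.eval (n : ℤ) ≠ 0 := by
    by_contra h
    push Not at h
    refine hP0 (Polynomial.eq_zero_of_infinite_isRoot P ?_)
    refine Set.Infinite.mono (s := Set.range fun n : ℕ => (n : ℤ)) ?_
      (Set.infinite_range_of_injective Nat.cast_injective)
    rintro _ ⟨n, rfl⟩
    exact h n
  rw [hP, Polynomial.eval_mul, Polynomial.eval_X, Polynomial.eval_prod] at hn
  have hn0 : n ≠ 0 := by
    rintro rfl
    simp at hn
  have hn1 : ∀ κ ∈ E, (p κ).eval (n : ℤ) ≠ 0 := by
    intro κ hκ h
    exact hn (by rw [Finset.prod_eq_zero hκ h, mul_zero])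
  refine ⟨fun i => if i ∈ s then 0 else n ^ e i, fun i hi => if_pos hi, fun i hi => ?_,
    fun κ hκ => ?_⟩
  · simp only [if_neg hi]
    positivity
  · have h := hn1 κ hκ
    simp only [hp, Polynomial.eval_finsetSum] at h
    intro h0
    apply h
    rw [← h0]
    refine Finset.sum_congr rfl fun i _ => ?_
    by_cases hi : i ∈ s
    · simp [hi]
    · simp only [if_neg hi, Polynomial.eval_monomial]
      push_cast
      ring

end Pool.Newt
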