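import Pool.Agent.H39.Newt.Stmts

/-! # Project NEWTON, module POL: the polynomial form of the recurrence -/

set_option autoImplicit false
set_option linter.unusedSectionVars false

namespace Pool.Newt

open MvPolynomial

section POL

variable {σ I : Type} [Fintype σ] [Fintype I]

/-- one factor -/
theorem POL_one (t J : ℕ) (κ : ℤ) (hJ : κ ≤ J) (h : 0 ≤ (t : ℤ) + κ) :
    ((((t : ℤ) + κ).toNat.factorial : ℕ) : ℚ) * ∏ j ∈ Finset.Ioc κ (J : ℤ), ((t : ℚ) + (j : ℚ)) =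
      (((t + J).factorial : ℕ) : ℚ) := by
  obtain ⟨n, hn⟩ : ∃ n : ℕ, (J : ℤ) = κ + n := ⟨((J : ℤ) - κ).toNat, by omega⟩
  rw [hn]
  have key : ∀ n : ℕ, ((((t : ℤ) + κ).toNat.factorial : ℕ) : ℚ) *
      ∏ j ∈ Finset.Ioc κ (κ + (n : ℤ)), ((t : ℚ) + (j : ℚ)) =
      ((((t : ℤ) + (κ + n)).toNat.factorial : ℕ) : ℚ) := by
    intro n
    induction n with
    | zero => simp
    | succ n ih =>
      have e1 : Finset.Ioc κ (κ + ((n + 1 : ℕ) : ℤ)) =
          insert (κ + n + 1) (Finset.Ioc κ (κ + (n : ℤ))) := by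
        ext j
        simp only [Finset.mem_insert, Finset.mem_Ioc]
        push_cast
        omega
      rw [e1, Finset.prod_insert (by simp), mul_left_comm, ih]
      have e2 : ((t : ℤ) + (κ + ((n + 1 : ℕ) : ℤ))).toNat = ((t : ℤ) + (κ + n)).toNat + 1 := by
        push_cast
        omega
      rw [e2, Nat.factorial_succ, Nat.cast_mul]
      congr 1
      have e3 : (((((t : ℤ) + (κ + n)).toNat + 1 : ℕ) : ℤ) : ℚ) = ((t : ℤ) + (κ + n + 1) : ℤ) := by
        congr 1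
        omega
      rw [Int.cast_natCast] at e3
      rw [e3]
      push_cast
      ring
  rw [key n, ← hn]
  congr 2

theorem POL_key (t : I → ℕ) (κ : I → ℤ) (J : ℕ) (hJ : ∀ i, κ i ≤ J) :
    multi (fun i => (t i : ℤ) + κ i) * ∏ i, (((t i + J).factorial : ℕ) : ℚ) =
      (((∑ i, ((t i : ℤ) + κ i)).toNat.factorial : ℕ) : ℚ) *
        eval (fun i => (t i : ℚ)) (Pg J κ) := by
  have e0 : eval (fun i => (t i : ℚ)) (Pg J κ) =
      ∏ i, ∏ j ∈ Finset.Ioc (κ i) (J : ℤ), ((t i : ℚ) + (j : ℚ)) := by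
    unfold Pg
    rw [map_prod]
    refine Finset.prod_congr rfl fun i _ => ?_
    rw [map_prod]
    refine Finset.prod_congr rfl fun j _ => ?_
    simp
  rw [e0]
  unfold multi
  split_ifs with h
  · have e1 : ∀ i, (((t i + J).factorial : ℕ) : ℚ) =
        ((((t i : ℤ) + κ i).toNat.factorial : ℕ) : ℚ) *
          ∏ j ∈ Finset.Ioc (κ i) (J : ℤ), ((t i : ℚ) + (j : ℚ)) := fun i =>
      (POL_one (t i) J (κ i) (hJ i) (h i)).symm
    simp_rw [e1]
    rw [Finset.prod_mul_distrib, ← mul_assoc]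
    congr 1
    have h1 := Nat.multinomial_spec (Finset.univ : Finset I) (fun i => ((t i : ℤ) + κ i).toNat)
    have h2 : (∑ i, ((t i : ℤ) + κ i)).toNat = ∑ i, ((t i : ℤ) + κ i).toNat := by
      have : (∑ i, ((t i : ℤ) + κ i)) = ((∑ i, ((t i : ℤ) + κ i).toNat : ℕ) : ℤ) := by
        rw [Nat.cast_sum]
        refine Finset.sum_congr rfl fun i _ => ?_
        exact (Int.toNat_of_nonneg (h i)).symm
      rw [this, Int.toNat_natCast]
    rw [h2, ← h1, mul_comm]
    push_cast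
    rfl
  · push Not at h
    obtain ⟨i, hi⟩ := h
    rw [zero_mul]
    symm
    refine mul_eq_zero_of_right _ (Finset.prod_eq_zero (Finset.mem_univ i) ?_)
    refine Finset.prod_eq_zero (i := -(t i : ℤ)) ?_ ?_
    · rw [Finset.mem_Ioc]
      constructor <;> omega
    · push_cast
      ring

end POL

theorem sPol : SPol := by
  classical
  intro σ I _ _ a s α K R
  obtain ⟨J0, hJ0⟩ : ∃ J0 : ℕ, (∀ κ ∈ R.Dk, ∀ i, κ i ≤ J0) ∧ ∀ δ ∈ R.Dd, ∀ i, δ i ≤ J0 := by
    refine ⟨(∑ κ ∈ R.Dk, ∑ i, (κ i).toNat) + ∑ δ ∈ R.Dd, ∑ i, (δ i).toNat, ?_, ?_⟩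
    · intro κ hκ i
      have h1 := Finset.single_le_sum (f := fun κ : I → ℤ => ∑ i, (κ i).toNat)
        (fun _ _ => Nat.zero_le _) hκ
      have h2 := Finset.single_le_sum (f := fun i => (κ i).toNat) (fun _ _ => Nat.zero_le _)
        (Finset.mem_univ i)
      have h3 := Int.self_le_toNat (κ i)
      omega
    · intro κ hκ i
      have h1 := Finset.single_le_sum (f := fun κ : I → ℤ => ∑ i, (κ i).toNat)
        (fun _ _ => Nat.zero_le _) hκ
      have h2 := Finset.single_le_sum (f := fun i => (κ i).toNat) (fun _ _ => Nat.zero_le _)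
        (Finset.mem_univ i)
      have h3 := Int.self_le_toNat (κ i)
      omega
  refine ⟨J0, fun J hJ => ?_⟩
  have hJk : ∀ κ ∈ R.Dk, ∀ i, κ i ≤ J := fun κ hκ i =>
    (hJ0.1 κ hκ i).trans (by exact_mod_cast hJ)
  have hJd : ∀ κ ∈ R.Dd, ∀ i, κ i ≤ J := fun κ hκ i =>
    (hJ0.2 κ hκ i).trans (by exact_mod_cast hJ)
  unfold Rec.Poly
  refine MvPolynomial.funext_set (fun _ => Set.range fun n : ℕ => (n : ℚ))
    (fun _ => Set.infinite_range_of_injective Nat.cast_injective) ?_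
  intro x hx
  choose t ht using fun i => hx i (Set.mem_univ i)
  obtain rfl : (fun i => (t i : ℚ)) = x := funext ht
  have h := R.rc t
  set F : ℚ := (((∑ i, t i).factorial : ℕ) : ℚ) with hF
  have hF0 : F ≠ 0 := by
    rw [hF]
    exact_mod_cast Nat.factorial_ne_zero _
  apply mul_left_cancel₀ hF0
  rw [map_sum, map_sum, Finset.mul_sum, Finset.mul_sum]
  have h2 := congrArg (fun z => z * ∏ i, (((t i + J).factorial : ℕ) : ℚ)) h
  simp only [Finset.sum_mul] at h2
  have hk0 : ∀ κ ∈ R.Dk, ∑ i, κ i = 0 := fun κ hκ => (R.hDk κ hκ).1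
  have e1 : ∀ κ ∈ R.Dk, F * eval (fun i => (t i : ℚ))
      ((C (R.r κ) + ((∑ i, X i) - C α) ^ K * R.G κ) * Pg J κ) =
      (R.r κ + ((∑ i, (t i : ℚ)) - α) ^ K * eval (fun i => (t i : ℚ)) (R.G κ)) *
      multi (fun i => (t i : ℤ) + κ i) * ∏ i, (((t i + J).factorial : ℕ) : ℚ) := by
    intro κ hκ
    have e3 : (∑ i, (t i : ℤ)).toNat = ∑ i, t i := by
      rw [← Nat.cast_sum, Int.toNat_natCast]
    rw [mul_assoc _ (multi _), POL_key t κ J (hJk κ hκ), Finset.sum_add_distrib, hk0 κ hκ, add_zero,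
      e3, ← hF]
    simp only [map_mul, map_add, map_sub, map_pow, map_sum, eval_C, eval_X]
    ring
  have e2 : ∀ δ ∈ R.Dd, F * eval (fun i => (t i : ℚ))
      (((∑ i, X i) + 1) * Pg J δ * (dd a δ * R.q δ)) =
      eval (fun i => (t i : ℚ)) (dd a δ * R.q δ) * multi (fun i => (t i : ℤ) + δ i) *
        ∏ i, (((t i + J).factorial : ℕ) : ℚ) := by
    intro δ hδ
    rw [mul_assoc _ (multi _), POL_key t δ J (hJd δ hδ), Finset.sum_add_distrib, R.hDd δ hδ]
    have e3 : ((∑ i, (t i : ℤ)) + 1).toNat = (∑ i, t i) + 1 := by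
      rw [← Nat.cast_sum]
      omega
    rw [e3, Nat.factorial_succ, Nat.cast_mul, ← hF]
    simp only [map_mul, map_add, map_sum, map_one, eval_X]
    push_cast
    ring
  rw [Finset.sum_congr rfl e1, Finset.sum_congr rfl e2]
  exact h2

end Pool.Newt
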